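import Mathlib
import Pool.Agent.X211.SDR

/-!
The `ω₁`-ballean of `Sym(ω)` is emu-bounded if and only if the continuum hypothesis fails.
-/

set_option autoImplicit false
open Cardinal Set

namespace Pool.Agent.Results.MP_c8ce56_lc.EmuIffNotCH

section Defs

variable {G : Type} [Group G]

/-- `f` is eventually macro-uniform for the `κ`-ballean of `G`: for every `F` of size `< κ` there
is `B` of size `< κ` such that the diameters of `f (F x)`, `x ∉ B`, are bounded. -/
def EventuallyMacroUniform (κ : Cardinal.{0}) (f : G → ℝ) : Prop :=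
  ∀ F : Set G, Cardinal.mk F < κ → ∃ B : Set G, Cardinal.mk B < κ ∧
    ∃ C : ℝ, ∀ x : G, x ∉ B → ∀ g ∈ F, ∀ h ∈ F, |f (g * x) - f (h * x)| ≤ C

/-- The `κ`-ballean of `G` is emu-bounded. -/
def EmuBounded (κ : Cardinal.{0}) (G : Type) [Group G] : Prop :=
  ∀ f : G → ℝ, EventuallyMacroUniform κ f →
    ∃ B : Set G, Cardinal.mk B < κ ∧ ∃ M : ℝ, ∀ x : G, x ∉ B → |f x| ≤ M

end Defs

theorem countable_closure {G : Type} [Group G] {s : Set G} (hs : s.Countable) :
    (Subgroup.closure s : Set G).Countable := by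
  have := hs.to_subtype
  have h1 : Countable (FreeGroup s) :=
    (Quot.mk_surjective (r := FreeGroup.Red.Step (α := s))).countable
  have h2 : (FreeGroup.lift (Subtype.val : s → G)).range = Subgroup.closure s := by
    rw [FreeGroup.range_lift_eq_closure, Subtype.range_coe]
  rw [← h2]
  exact Set.countable_range _

theorem mk_lt_iff {α : Type} (s : Set α) : #s < ℵ₁ ↔ s.Countable :=
  (Cardinal.countable_iff_lt_aleph_one s).symm

/-! ### Under CH -/

theorem not_emuBounded {G : Type} [Group G] (hG : #G = ℵ₁) : ¬ EmuBounded ℵ₁ G := by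
  classical
  intro hemu
  obtain ⟨_, _, hseg⟩ := Pool.Agent.X211.exists_wellOrder_small G
  have hIio : ∀ x : G, (Iio x).Countable := by
    intro x
    have := hseg x
    rw [hG] at this
    exact (mk_lt_iff _).mp this
  have hunc : ¬ (Set.univ : Set G).Countable := by
    intro h
    rw [← mk_lt_iff, Cardinal.mk_univ, hG] at h
    exact lt_irrefl _ h
  -- the chain of countable subgroups
  let K : G → Subgroup G := fun w => Subgroup.closure (Iio w)
  have hKc : ∀ w, (K w : Set G).Countable := by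
    intro w
    exact countable_closure (hIio w)
  have hKmono : ∀ {w w' : G}, w ≤ w' → K w ≤ K w' := by
    intro w w' h
    exact Subgroup.closure_mono (Iio_subset_Iio h)
  have hgt : ∀ x : G, ∃ w, x < w := by
    intro x
    by_contra hcon
    push Not at hcon
    apply hunc
    have : (Set.univ : Set G) ⊆ insert x (Iio x) := by
      intro y _
      rcases (hcon y).lt_or_eq with h | h
      · exact Or.inr h
      · exact Or.inl h
    exact ((hIio x).insert x).mono this
  have hex : ∀ x : G, {w | x ∈ K w}.Nonempty := by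
    intro x
    obtain ⟨w, hw⟩ := hgt x
    exact ⟨w, Subgroup.subset_closure hw⟩
  let ρ : G → G := fun x => wellFounded_lt.min {w | x ∈ K w} (hex x)
  have hρ1 : ∀ x, x ∈ K (ρ x) := fun x => wellFounded_lt.min_mem {w | x ∈ K w} (hex x)
  have hρ2 : ∀ x w, x ∈ K w → ρ x ≤ w := fun x w h =>
    not_lt.mp (wellFounded_lt.not_lt_min {w | x ∈ K w} h)
  have hρ3 : ∀ g x w, g ∈ K w → w < ρ x → ρ (g * x) = ρ x := by
    intro g x w hg hw
    apply le_antisymm
    · apply hρ2
      exact (K _).mul_mem (hKmono hw.le hg) (hρ1 x)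
    · by_contra hlt
      rw [not_le] at hlt
      rcases le_total w (ρ (g * x)) with h | h
      · have h1 : x ∈ K (ρ (g * x)) := by
          have h2 := (K _).mul_mem ((K _).inv_mem (hKmono h hg)) (hρ1 (g * x))
          rwa [inv_mul_cancel_left] at h2
        exact absurd (hρ2 _ _ h1) (not_le.mpr hlt)
      · have h1 : x ∈ K w := by
          have h2 := (K _).mul_mem ((K _).inv_mem hg) (hKmono h (hρ1 (g * x)))
          rwa [inv_mul_cancel_left] at h2
        exact absurd (hρ2 _ _ h1) (not_le.mpr hw)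
  -- the range of `ρ` is uncountable
  have hR : ¬ (range ρ).Countable := by
    intro h
    apply hunc
    have : (Set.univ : Set G) ⊆ ⋃ w ∈ range ρ, (K w : Set G) := by
      intro x _
      simp only [mem_iUnion]
      exact ⟨ρ x, ⟨x, rfl⟩, hρ1 x⟩
    exact (h.biUnion fun w _ => hKc w).mono this
  -- split it into uncountable pieces
  have hsplit : ∃ h : G → ℕ, ∀ n, ¬ {x | h (ρ x) = n}.Countable := by
    have hinf : Infinite (range ρ) := by
      rw [Set.infinite_coe_iff]
      exact fun h => hR h.countable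
    have hcard : #(ℕ × range ρ) = #(range ρ) := by
      rw [Cardinal.mk_prod, Cardinal.lift_id, Cardinal.lift_id, Cardinal.mk_nat]
      exact Cardinal.mul_eq_right (Cardinal.aleph0_le_mk _) (Cardinal.aleph0_le_mk _)
        Cardinal.aleph0_ne_zero
    obtain ⟨e⟩ := Cardinal.eq.mp hcard
    refine ⟨fun w => if h : w ∈ range ρ then (e.symm ⟨w, h⟩).1 else 0, fun n hc => ?_⟩
    apply hR
    have hinj : Function.Injective (fun r : range ρ => e (n, r)) := by
      intro r r' h
      exact (Prod.mk.inj (e.injective h)).2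
    have h1 : (Set.range (fun r : range ρ => (e (n, r)).1)).Countable := by
      refine ((hc.image ρ)).mono ?_
      rintro _ ⟨r, rfl⟩
      obtain ⟨x, hx⟩ := (e (n, r)).2
      refine ⟨x, ?_, hx⟩
      change (if h : ρ x ∈ range ρ then (e.symm ⟨ρ x, h⟩).1 else 0) = n
      rw [dif_pos ⟨x, rfl⟩]
      have : (⟨ρ x, ⟨x, rfl⟩⟩ : range ρ) = e (n, r) := Subtype.ext hx
      rw [this, e.symm_apply_apply]
    have h2 : Countable (range ρ) := by
      have h3 : Function.Injective (fun r : range ρ => (e (n, r)).1) :=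
        Subtype.val_injective.comp hinj
      have := h1.to_subtype
      exact (Set.injective_codRestrict (s := Set.range (fun r : range ρ => (e (n, r)).1))
        (fun r => ⟨r, rfl⟩)).mpr h3 |>.countable
    exact Set.countable_coe_iff.mp h2
  obtain ⟨h, hh⟩ := hsplit
  obtain ⟨B, hB, M, hM⟩ := hemu (fun x => (h (ρ x) : ℝ)) (by
    intro F hF
    have hFc := (mk_lt_iff F).mp hF
    -- bound for `F`
    have hbd : ∃ w, ∀ g ∈ F, g ∈ K w := by
      by_contra hcon
      push Not at hcon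
      apply hunc
      have : (Set.univ : Set G) ⊆ ⋃ g ∈ F, insert (ρ g) (Iio (ρ g)) := by
        intro w _
        obtain ⟨g, hg, hgw⟩ := hcon w
        simp only [mem_iUnion]
        refine ⟨g, hg, ?_⟩
        rcases lt_or_ge w (ρ g) with h | h
        · exact Or.inr h
        · exact absurd (hKmono h (hρ1 g)) hgw
      exact (hFc.biUnion fun g _ => (hIio (ρ g)).insert (ρ g)).mono this
    obtain ⟨w, hw⟩ := hbd
    refine ⟨(K w : Set G), (mk_lt_iff _).mpr (hKc w), 0, ?_⟩
    intro x hx g hg g' hg'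
    have hwx : w < ρ x := by
      by_contra hcon
      exact hx (hKmono (not_lt.mp hcon) (hρ1 x))
    dsimp only
    rw [hρ3 g x w (hw g hg) hwx, hρ3 g' x w (hw g' hg') hwx]
    simp)
  obtain ⟨n, hn⟩ := exists_nat_gt M
  apply hh n
  refine ((mk_lt_iff B).mp hB).mono ?_
  intro x hx
  by_contra hxB
  have h1 := hM x hxB
  have h2 : h (ρ x) = n := hx
  rw [h2] at h1
  have h3 : (n : ℝ) ≤ |(n : ℝ)| := le_abs_self _
  linarith

/-! ### Under the failure of CH -/

/-- a family of at most `ℵ₁` countable sets does not cover a set of size `> ℵ₁` -/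
theorem exists_notMem_iUnion {α W : Type} (hW : #W = ℵ₁) (B : W → Set α)
    (hB : ∀ w, (B w).Countable) (L : Set α) (hL : ℵ₁ < #L) : ∃ l ∈ L, ∀ w, l ∉ B w := by
  by_contra hcon
  push Not at hcon
  have hsub : L ⊆ ⋃ w, B w := by
    intro l hl
    obtain ⟨w, hw⟩ := hcon l hl
    exact mem_iUnion.mpr ⟨w, hw⟩
  have h1 : #(⋃ w, B w) ≤ ℵ₁ := by
    refine (Cardinal.mk_iUnion_le B).trans ?_
    rw [hW]
    have h2 : ⨆ w, #(B w) ≤ ℵ₁ := by
      apply ciSup_le'
      intro w
      exact ((mk_lt_iff _).mpr (hB w)).le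
    refine (mul_le_mul' le_rfl h2).trans ?_
    exact (Cardinal.mul_eq_self (Cardinal.aleph0_le_aleph 1)).le
  exact absurd ((Cardinal.mk_le_mk_of_subset hsub).trans h1) (not_le.mpr hL)

/-- uncountable sets contain injective images of a type of size `ℵ₁` -/
theorem exists_inj {α W : Type} (hW : #W = ℵ₁) {U : Set α} (hU : ¬ U.Countable) :
    ∃ u : W → α, Function.Injective u ∧ ∀ w, u w ∈ U := by
  have h1 : #W ≤ #U := by
    rw [hW]
    by_contra h
    exact hU ((mk_lt_iff U).mp (not_le.mp h))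
  obtain ⟨e⟩ := (Cardinal.le_def _ _).mp h1
  exact ⟨fun w => e w, Subtype.val_injective.comp e.injective, fun w => (e w).2⟩

/-- an injective family indexed by an uncountable type escapes a countable set -/
theorem exists_escape {α W : Type} (hW : #W = ℵ₁) {u : W → α} (hu : Function.Injective u)
    {B : Set α} (hB : B.Countable) : ∃ w, u w ∉ B := by
  by_contra hcon
  push Not at hcon
  have h1 : #W ≤ #B :=
    Cardinal.mk_le_of_injective (f := fun w => (⟨u w, hcon w⟩ : B))
      (fun w w' h => hu (congrArg Subtype.val h))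
  rw [hW] at h1
  exact absurd ((mk_lt_iff B).mpr hB) (not_lt.mpr h1)

section

variable {G : Type} [Group G]

theorem two_sets {W : Type} (hW : #W = ℵ₁) {f : G → ℝ} {C : ℝ}
    (hf : ∀ g : G, ∃ B : Set G, B.Countable ∧ ∀ x ∉ B, |f (g * x) - f x| ≤ C)
    {K L : Set G} (hKL : ∀ k ∈ K, ∀ l ∈ L, k * l = l * k) (hL : ℵ₁ < #L) (x : G) {a b : ℝ}
    (hab : a + 4 * C < b) :
    {k ∈ K | f (k * x) < a}.Countable ∨ {k ∈ K | b < f (k * x)}.Countable := by
  by_contra hcon
  push Not at hcon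
  obtain ⟨hU, hV⟩ := hcon
  obtain ⟨u, hu, huU⟩ := exists_inj hW hU
  obtain ⟨v, hv, hvV⟩ := exists_inj hW hV
  choose B hBc hB using hf
  obtain ⟨l, hl, hlB⟩ := exists_notMem_iUnion hW
    (fun w => (fun y => y * x⁻¹) '' (B (u w) ∪ B (v w)))
    (fun w => ((hBc _).union (hBc _)).image _) L hL
  have hlx : ∀ w, l * x ∉ B (u w) ∪ B (v w) := by
    intro w h
    exact hlB w ⟨l * x, h, by simp⟩
  obtain ⟨w₁, hw₁⟩ := exists_escape hW (u := fun w => u w * x)
    (fun w w' h => hu (mul_right_cancel h)) (hBc l)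
  obtain ⟨w₂, hw₂⟩ := exists_escape hW (u := fun w => v w * x)
    (fun w w' h => hv (mul_right_cancel h)) (hBc l)
  have e1 := hB (u w₁) (l * x) (fun h => hlx w₁ (Or.inl h))
  have e2 := hB (v w₂) (l * x) (fun h => hlx w₂ (Or.inr h))
  have e3 := hB l (u w₁ * x) hw₁
  have e4 := hB l (v w₂ * x) hw₂
  have c1 : u w₁ * (l * x) = l * (u w₁ * x) := by
    rw [← mul_assoc, hKL _ (huU w₁).1 l hl, mul_assoc]
  have c2 : v w₂ * (l * x) = l * (v w₂ * x) := by
    rw [← mul_assoc, hKL _ (hvV w₂).1 l hl, mul_assoc]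
  rw [c1] at e1
  rw [c2] at e2
  have h1 := (huU w₁).2
  have h2 := (hvV w₂).2
  rw [abs_le] at e1 e2 e3 e4
  linarith [e1.1, e1.2, e2.1, e2.2, e3.1, e3.2, e4.1, e4.2]

theorem near_const {W : Type} (hW : #W = ℵ₁) {f : G → ℝ} {C : ℝ}
    (hf : ∀ g : G, ∃ B : Set G, B.Countable ∧ ∀ x ∉ B, |f (g * x) - f x| ≤ C)
    {K L : Set G} (hKL : ∀ k ∈ K, ∀ l ∈ L, k * l = l * k) (hL : ℵ₁ < #L)
    (hK : ¬ K.Countable) (x : G) :
    ∃ c : ℝ, {k ∈ K | 4 * C + 3 < |f (k * x) - c|}.Countable := by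
  have hn : ∃ n : ℤ, ¬ {k ∈ K | ⌊f (k * x)⌋ = n}.Countable := by
    by_contra hcon
    push Not at hcon
    apply hK
    refine (Set.countable_iUnion hcon).mono ?_
    intro k hk
    exact mem_iUnion.mpr ⟨⌊f (k * x)⌋, hk, rfl⟩
  obtain ⟨n, hn⟩ := hn
  refine ⟨n, ?_⟩
  have h1 : {k ∈ K | (n : ℝ) + 2 + 4 * C < f (k * x)}.Countable := by
    rcases two_sets hW hf hKL hL x (a := n + 1) (b := (n : ℝ) + 2 + 4 * C) (by linarith) with h | h
    · exfalso
      apply hn
      refine h.mono ?_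
      rintro k ⟨hk, hkn⟩
      refine ⟨hk, ?_⟩
      have := Int.lt_floor_add_one (f (k * x))
      rw [hkn] at this
      exact this
    · exact h
  have h2 : {k ∈ K | f (k * x) < (n : ℝ) - 1 - 4 * C}.Countable := by
    rcases two_sets hW hf hKL hL x (a := (n : ℝ) - 1 - 4 * C) (b := (n : ℝ) - 1 / 2)
      (by linarith) with h | h
    · exact h
    · exfalso
      apply hn
      refine h.mono ?_
      rintro k ⟨hk, hkn⟩
      refine ⟨hk, ?_⟩
      have := Int.floor_le (f (k * x))
      rw [hkn] at this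
      linarith
  refine (h1.union h2).mono ?_
  rintro k ⟨hk, hkc⟩
  rcases le_or_gt (f (k * x)) ((n : ℝ) + 2 + 4 * C) with h3 | h3
  · rcases le_or_gt ((n : ℝ) - 1 - 4 * C) (f (k * x)) with h4 | h4
    · exfalso
      have : |f (k * x) - n| ≤ 4 * C + 3 := by
        rw [abs_le]
        constructor <;> linarith
      linarith
    · exact Or.inr ⟨hk, h4⟩
  · exact Or.inl ⟨hk, h3⟩

end

/-- permutations supported in `A` -/
def SA (A : Set ℕ) : Set (Equiv.Perm ℕ) := {g | ∀ n, n ∉ A → g n = n}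

theorem SA_mono {A A' : Set ℕ} (h : A ⊆ A') : SA A ⊆ SA A' := fun _ hg n hn => hg n fun h' => hn (h h')

theorem SA_mul {A : Set ℕ} {g h : Equiv.Perm ℕ} (hg : g ∈ SA A) (hh : h ∈ SA A) : g * h ∈ SA A := by
  intro n hn
  rw [Equiv.Perm.mul_apply, hh n hn, hg n hn]

theorem SA_inv {A : Set ℕ} {g : Equiv.Perm ℕ} (hg : g ∈ SA A) : g⁻¹ ∈ SA A := by
  intro n hn
  rw [Equiv.Perm.inv_eq_iff_eq, hg n hn]

theorem SA_comm {A : Set ℕ} {g h : Equiv.Perm ℕ} (hg : g ∈ SA A) (hh : h ∈ SA Aᶜ) :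
    g * h = h * g := by
  ext n
  rw [Equiv.Perm.mul_apply, Equiv.Perm.mul_apply]
  by_cases hn : n ∈ A
  · have h1 : h n = n := hh n (fun h => h hn)
    rw [h1]
    have h2 : g n ∈ A := by
      by_contra hgn
      have e : g n = n := g.injective (hg _ hgn)
      rw [e] at hgn
      exact hgn hn
    rw [hh (g n) (fun h => h h2)]
  · have h1 : g n = n := hg n hn
    rw [h1]
    have h2 : h n ∉ A := by
      intro hhn
      have h3 : h n = n := h.injective (hh _ (fun h' => h' hhn))
      rw [h3] at hhn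
      exact hn hhn
    rw [hg _ h2]

theorem mk_SA {A : Set ℕ} (hA : A.Infinite) : 𝔠 ≤ #(SA A) := by
  classical
  have : Infinite A := hA.to_subtype
  have h1 : #(Equiv.Perm A) = 𝔠 := by
    rw [Cardinal.mk_perm_eq_two_power, Cardinal.mk_eq_aleph0, Cardinal.two_power_aleph0]
  rw [← h1]
  refine Cardinal.mk_le_of_injective (f := fun g : Equiv.Perm A =>
    (⟨Equiv.Perm.ofSubtype g, fun n hn => Equiv.Perm.ofSubtype_apply_of_not_mem g hn⟩ : SA A)) ?_
  intro g g' h
  exact Equiv.Perm.ofSubtype_injective (congrArg Subtype.val h)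

/-- infinite sets split into two infinite parts -/
theorem exists_split {A : Set ℕ} (hA : A.Infinite) :
    ∃ A₁ ⊆ A, A₁.Infinite ∧ (A \ A₁).Infinite := by
  let e := hA.natEmbedding A
  refine ⟨range (fun n => (e (2 * n) : ℕ)), ?_, ?_, ?_⟩
  · rintro _ ⟨n, rfl⟩
    exact (e _).2
  · apply Set.infinite_range_of_injective
    intro m n h
    have := e.injective (Subtype.ext h)
    omega
  · have : (range (fun n => (e (2 * n + 1) : ℕ))).Infinite := by
      apply Set.infinite_range_of_injective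
      intro m n h
      have := e.injective (Subtype.ext h)
      omega
    refine this.mono ?_
    rintro _ ⟨n, rfl⟩
    refine ⟨(e _).2, ?_⟩
    rintro ⟨m, hm⟩
    have := e.injective (Subtype.ext hm)
    omega

/-- a moiety: infinite with infinite complement -/
def Moiety (A : Set ℕ) : Prop := A.Infinite ∧ Aᶜ.Infinite

/-- every permutation is a product of two permutations supported in moieties -/
theorem factor (g : Equiv.Perm ℕ) : ∃ (A A' : Set ℕ) (k k' : Equiv.Perm ℕ), Moiety A ∧ Moiety A' ∧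
    k ∈ SA A ∧ k' ∈ SA A' ∧ g = k * k' := by
  classical
  by_cases hfin : {n | g n ≠ n}.Finite
  · -- finite support
    have hinf : ({n | g n ≠ n}ᶜ).Infinite := hfin.infinite_compl
    obtain ⟨A₁, hA₁, h1, h2⟩ := exists_split hinf
    have hM : Moiety A₁ᶜ := by
      refine ⟨h2.mono fun n hn => hn.2, ?_⟩
      rwa [compl_compl]
    refine ⟨A₁ᶜ, A₁ᶜ, g, 1, hM, hM, ?_, fun n _ => rfl, (mul_one g).symm⟩
    intro n hn
    rw [Set.mem_compl_iff, not_not] at hn
    by_contra hne
    exact hA₁ hn hne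
  · -- infinite support
    obtain ⟨E, -, hE⟩ := zorn_subset_nonempty {E : Set ℕ | E ⊆ {n | g n ≠ n} ∧
        ∀ n ∈ E, g n ∉ E} (by
      intro c hc hch hne
      refine ⟨⋃₀ c, ⟨Set.sUnion_subset fun s hs => (hc hs).1, ?_⟩,
        fun s hs => Set.subset_sUnion_of_mem hs⟩
      rintro n ⟨s, hs, hn⟩ ⟨t, ht, hgn⟩
      rcases hch.total hs ht with hst | hst
      · exact (hc ht).2 n (hst hn) hgn
      · exact (hc hs).2 n hn (hst hgn)) ∅ ⟨by simp, by simp⟩
    have hEinf : E.Infinite := by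
      intro hEfin
      apply hfin
      have hsub : {n | g n ≠ n} ⊆ E ∪ g '' E ∪ g.symm '' E := by
        intro x hx
        by_contra hcon
        simp only [mem_union, not_or] at hcon
        obtain ⟨⟨hx1, hx2⟩, hx3⟩ := hcon
        apply hx1
        have hmem : insert x E ∈ {E : Set ℕ | E ⊆ {n | g n ≠ n} ∧ ∀ n ∈ E, g n ∉ E} := by
          refine ⟨Set.insert_subset hx hE.1.1, ?_⟩
          rintro n (rfl | hn) (h | h)
          · exact hx h
          · exact hx3 ⟨g n, h, g.symm_apply_apply n⟩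
          · exact hx2 ⟨n, hn, h⟩
          · exact hE.1.2 n hn h
        exact hE.2 hmem (Set.subset_insert _ _) (Set.mem_insert _ _)
      exact ((hEfin.union (hEfin.image _)).union (hEfin.image _)).subset hsub
    obtain ⟨E₁, hE₁, h1, h2⟩ := exists_split hEinf
    have hdisj : ∀ n ∈ E₁, g n ∉ E := fun n hn => hE.1.2 n (hE₁ hn)
    -- the involution swapping `n` and `g n` for `n ∈ E₁`
    let τ : ℕ → ℕ := fun n => if n ∈ E₁ then g n else if g.symm n ∈ E₁ then g.symm n else n
    have t1 : ∀ n ∈ E₁, τ n = g n := fun n hn => if_pos hn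
    have t2 : ∀ n, g.symm n ∈ E₁ → τ n = g.symm n := by
      intro n hn
      have : n ∉ E₁ := by
        intro h
        have := hdisj _ hn
        rw [g.apply_symm_apply] at this
        exact this (hE₁ h)
      simp only [τ, if_neg this, if_pos hn]
    have t3 : ∀ n, n ∉ E₁ → g.symm n ∉ E₁ → τ n = n := by
      intro n h h'
      simp only [τ, if_neg h, if_neg h']
    have hinv : ∀ n, τ (τ n) = n := by
      intro n
      by_cases hn : n ∈ E₁
      · rw [t1 n hn, t2 (g n) (by rwa [g.symm_apply_apply]), g.symm_apply_apply]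
      · by_cases hn' : g.symm n ∈ E₁
        · rw [t2 n hn', t1 _ hn', g.apply_symm_apply]
        · rw [t3 n hn hn', t3 n hn hn']
    let k : Equiv.Perm ℕ := ⟨τ, τ, hinv, hinv⟩
    have hk : ∀ n, k n = τ n := fun n => rfl
    refine ⟨E₁ ∪ g '' E₁, E₁ᶜ, k, k⁻¹ * g, ⟨h1.mono subset_union_left, ?_⟩,
      ⟨h2.mono fun n hn => hn.2, by rwa [compl_compl]⟩, ?_, ?_, by group⟩
    · refine h2.mono ?_
      rintro n ⟨hn1, hn2⟩ (h | ⟨m, hm, rfl⟩)
      · exact hn2 h
      · exact hdisj m hm hn1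
    · intro n hn
      rw [hk]
      apply t3
      · exact fun h => hn (Or.inl h)
      · exact fun h => hn (Or.inr ⟨_, h, g.apply_symm_apply n⟩)
    · intro n hn
      rw [Set.mem_compl_iff, not_not] at hn
      rw [Equiv.Perm.mul_apply, Equiv.Perm.inv_eq_iff_eq, hk, t1 n hn]

theorem emuBounded_of_not_CH (hCH : (ℵ₁ : Cardinal.{0}) < 𝔠) : EmuBounded ℵ₁ (Equiv.Perm ℕ) := by
  classical
  intro f hemu
  -- a type of size `ℵ₁`
  let W : Type := (ℵ₁ : Cardinal.{0}).out
  have hW : #W = ℵ₁ := Cardinal.mk_out _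
  -- uniform constant
  have hunif : ∃ C : ℝ, ∀ g : Equiv.Perm ℕ, ∃ B : Set (Equiv.Perm ℕ), B.Countable ∧
      ∀ x ∉ B, |f (g * x) - f x| ≤ C := by
    by_contra hcon
    push Not at hcon
    have h1 : ∀ n : ℕ, ∃ g : Equiv.Perm ℕ, ∀ B : Set (Equiv.Perm ℕ), B.Countable →
        ∃ x, x ∉ B ∧ (n : ℝ) < |f (g * x) - f x| := fun n => hcon n
    choose g hg using h1
    obtain ⟨B, hB, C, hC⟩ := hemu (insert 1 (range g)) ((mk_lt_iff _).mpr
      ((countable_range g).insert 1))
    obtain ⟨n, hn⟩ := exists_nat_gt C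
    obtain ⟨x, hx, hlt⟩ := hg n B ((mk_lt_iff B).mp hB)
    have := hC x hx (g n) (Or.inr ⟨n, rfl⟩) 1 (Or.inl rfl)
    rw [one_mul] at this
    linarith
  obtain ⟨C, hf⟩ := hunif
  have hC0 : 0 ≤ C := by
    obtain ⟨B, hBc, hB⟩ := hf 1
    have hne : ¬ (Set.univ : Set (Equiv.Perm ℕ)).Countable := by
      intro h
      have h1 := (mk_lt_iff _).mpr h
      rw [Cardinal.mk_univ, Cardinal.mk_perm_eq_two_power, Cardinal.mk_nat,
        Cardinal.two_power_aleph0] at h1
      exact absurd h1 (not_lt.mpr hCH.le)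
    obtain ⟨x, hx⟩ : ∃ x, x ∉ B := by
      by_contra hcon
      push Not at hcon
      exact hne (hBc.mono fun x _ => hcon x)
    exact (abs_nonneg _).trans (hB x hx)
  have hbig : ∀ A : Set ℕ, A.Infinite → ℵ₁ < #(SA A) := fun A hA => hCH.trans_le (mk_SA hA)
  have hunc : ∀ A : Set ℕ, A.Infinite → ¬ (SA A).Countable := fun A hA h =>
    absurd ((mk_lt_iff _).mpr h) (not_lt.mpr (hbig A hA).le)
  set D : ℝ := 4 * C + 3 with hD
  have hD0 : 0 ≤ D := by linarith
  have hc : ∀ (A : Set ℕ) (x : Equiv.Perm ℕ), ∃ c : ℝ, Moiety A →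
      {k ∈ SA A | D < |f (k * x) - c|}.Countable := by
    intro A x
    by_cases hA : Moiety A
    · obtain ⟨c, hc⟩ := near_const hW hf (K := SA A) (L := SA Aᶜ)
        (fun k hk l hl => SA_comm hk hl) (hbig _ hA.2) (hunc _ hA.1) x
      exact ⟨c, fun _ => hc⟩
    · exact ⟨0, fun h => absurd h hA⟩
  choose c hc using hc
  -- comparing constants
  have comp1 : ∀ A A' x, Moiety A → Moiety A' → (A ∩ A').Infinite → |c A x - c A' x| ≤ 2 * D := by
    intro A A' x hA hA' hint
    obtain ⟨k, hk⟩ : ∃ k ∈ SA (A ∩ A'), k ∉ {k ∈ SA A | D < |f (k * x) - c A x|} ∪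
        {k ∈ SA A' | D < |f (k * x) - c A' x|} := by
      by_contra hcon
      push Not at hcon
      exact hunc _ hint (((hc A x hA).union (hc A' x hA')).mono hcon)
    have k1 : k ∈ SA A := SA_mono inter_subset_left hk.1
    have k2 : k ∈ SA A' := SA_mono inter_subset_right hk.1
    have e1 : |f (k * x) - c A x| ≤ D := by
      by_contra h
      exact hk.2 (Or.inl ⟨k1, not_le.mp h⟩)
    have e2 : |f (k * x) - c A' x| ≤ D := by
      by_contra h
      exact hk.2 (Or.inr ⟨k2, not_le.mp h⟩)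
    rw [abs_le] at e1 e2 ⊢
    constructor <;> linarith [e1.1, e1.2, e2.1, e2.2]
  have comp2 : ∀ A A' x, Moiety A → Moiety A' → |c A x - c A' x| ≤ 4 * D := by
    intro A A' x hA hA'
    by_cases hint : (A ∩ A').Infinite
    · exact (comp1 A A' x hA hA' hint).trans (by linarith)
    · obtain ⟨A₁, hA₁, h1, h2⟩ := exists_split hA.1
      have hd : (A' \ A).Infinite := by
        intro hfin
        apply hA'.1
        refine ((Set.not_infinite.mp hint).union hfin).subset ?_
        intro n hn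
        by_cases hnA : n ∈ A
        · exact Or.inl ⟨hnA, hn⟩
        · exact Or.inr ⟨hn, hnA⟩
      have hA'' : Moiety (A₁ ∪ (A' \ A)) := by
        refine ⟨h1.mono subset_union_left, h2.mono ?_⟩
        rintro n ⟨hn1, hn2⟩ (h | h)
        · exact hn2 h
        · exact h.2 hn1
      have e1 := comp1 A (A₁ ∪ (A' \ A)) x hA hA'' (h1.mono fun n hn => ⟨hA₁ hn, Or.inl hn⟩)
      have e2 := comp1 (A₁ ∪ (A' \ A)) A' x hA'' hA' (hd.mono fun n hn => ⟨Or.inr hn, hn.1⟩)
      rw [abs_le] at e1 e2 ⊢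
      constructor <;> linarith [e1.1, e1.2, e2.1, e2.2]
  have comp3 : ∀ A x k, Moiety A → k ∈ SA A → |c A (k * x) - c A x| ≤ 2 * D := by
    intro A x k hA hk
    have himg : ((fun g => g * k) '' {k' ∈ SA A | D < |f (k' * (k * x)) - c A (k * x)|}).Countable :=
      (hc A (k * x) hA).image _
    obtain ⟨g, hg⟩ : ∃ g ∈ SA A, g ∉ {g ∈ SA A | D < |f (g * x) - c A x|} ∪
        ((fun g => g * k) '' {k' ∈ SA A | D < |f (k' * (k * x)) - c A (k * x)|}) := by
      by_contra hcon
      push Not at hcon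
      exact hunc _ hA.1 (((hc A x hA).union himg).mono hcon)
    have e1 : |f (g * x) - c A x| ≤ D := by
      by_contra h
      exact hg.2 (Or.inl ⟨hg.1, not_le.mp h⟩)
    have e2 : |f (g * x) - c A (k * x)| ≤ D := by
      by_contra h
      apply hg.2
      right
      refine ⟨g * k⁻¹, ⟨SA_mul hg.1 (SA_inv hk), ?_⟩, by simp⟩
      have : g * k⁻¹ * (k * x) = g * x := by group
      rw [this]
      exact not_le.mp h
    rw [abs_le] at e1 e2 ⊢
    constructor <;> linarith [e1.1, e1.2, e2.1, e2.2]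
  -- a fixed moiety
  obtain ⟨A₀, -, h1, h2⟩ := exists_split (Set.infinite_univ (α := ℕ))
  have hA₀ : Moiety A₀ := ⟨h1, h2.mono fun n hn => hn.2⟩
  have step : ∀ A x k, Moiety A → k ∈ SA A → |c A₀ (k * x) - c A₀ x| ≤ 10 * D := by
    intro A x k hA hk
    have e1 := comp2 A₀ A (k * x) hA₀ hA
    have e2 := comp3 A x k hA hk
    have e3 := comp2 A A₀ x hA hA₀
    rw [abs_le] at e1 e2 e3 ⊢
    constructor <;> linarith [e1.1, e1.2, e2.1, e2.2, e3.1, e3.2]
  have hφ : ∀ g, |c A₀ g - c A₀ 1| ≤ 20 * D := by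
    intro g
    obtain ⟨A, A', k, k', hA, hA', hk, hk', rfl⟩ := factor g
    have e1 := step A k' k hA hk
    have e2 := step A' 1 k' hA' hk'
    rw [mul_one] at e2
    rw [abs_le] at e1 e2 ⊢
    constructor <;> linarith [e1.1, e1.2, e2.1, e2.2]
  have hExc : {x | D + C < |f x - c A₀ x|}.Countable := by
    by_contra hun
    obtain ⟨y, hy, hyE⟩ := exists_inj hW hun
    obtain ⟨l, hl, hlE⟩ := exists_notMem_iUnion hW
      (fun w => {k ∈ SA A₀ | D < |f (k * y w) - c A₀ (y w)|}) (fun w => hc A₀ (y w) hA₀)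
      (SA A₀) (hbig _ hA₀.1)
    obtain ⟨B, hBc, hB⟩ := hf l
    obtain ⟨w, hw⟩ := exists_escape hW hy hBc
    have e1 := hB (y w) hw
    have e2 : |f (l * y w) - c A₀ (y w)| ≤ D := by
      by_contra h
      exact hlE w ⟨hl, not_le.mp h⟩
    have e3 : D + C < |f (y w) - c A₀ (y w)| := hyE w
    have e4 : |f (y w) - c A₀ (y w)| ≤ D + C := by
      rw [abs_le] at e1 e2 ⊢
      constructor <;> linarith [e1.1, e1.2, e2.1, e2.2]
    linarith
  refine ⟨_, (mk_lt_iff _).mpr hExc, |c A₀ 1| + 20 * D + (D + C), ?_⟩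
  intro x hx
  have e1 : |f x - c A₀ x| ≤ D + C := by
    by_contra h
    exact hx (not_le.mp h)
  have e2 := hφ x
  calc |f x| = |(f x - c A₀ x) + (c A₀ x - c A₀ 1) + c A₀ 1| := by ring_nf
    _ ≤ |(f x - c A₀ x) + (c A₀ x - c A₀ 1)| + |c A₀ 1| := abs_add_le _ _
    _ ≤ |f x - c A₀ x| + |c A₀ x - c A₀ 1| + |c A₀ 1| := by
        have := abs_add_le (f x - c A₀ x) (c A₀ x - c A₀ 1)
        linarith
    _ ≤ |c A₀ 1| + 20 * D + (D + C) := by linarith

/-- The `ω₁`-ballean of the group of all permutations of `ω` is emu-bounded if and only if the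
continuum hypothesis fails. -/
theorem result : EmuBounded ℵ₁ (Equiv.Perm ℕ) ↔ (𝔠 : Cardinal.{0}) ≠ ℵ₁ := by
  constructor
  · intro h hCH
    refine not_emuBounded (G := Equiv.Perm ℕ) ?_ h
    rw [Cardinal.mk_perm_eq_two_power, Cardinal.mk_nat, Cardinal.two_power_aleph0, hCH]
  · intro h
    exact emuBounded_of_not_CH (lt_of_le_of_ne Cardinal.aleph_one_le_continuum (Ne.symm h))

end Pool.Agent.Results.MP_c8ce56_lc.EmuIffNotCH
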